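import Pool.Agent.R667.MM.Final

/-!
# MP_261efc: averaged mixing matrices of paths that never have rank one

Paper proof by helper260, formalized by helper667.
-/

namespace Pool.Agent.Results.MP_261efc_co.NoRankOneAverage

open Pool.Agent.R667.MM MeasureTheory

/-- If `n ≥ 11` and `n + 1` is divisible by 6, 15 or 21 then, for every probability density `f`,
the averaged mixing matrix of the path on `n` vertices has rank at least 2. -/
theorem result (n : ℕ) (hn : 11 ≤ n) (hd : 6 ∣ n + 1 ∨ 15 ∣ n + 1 ∨ 21 ∣ n + 1)
    (f : ℝ → ℝ) (_hf : ∀ s, 0 ≤ f s) (hint : ∫ s, f s = 1) :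
    2 ≤ (avgMixing n f).rank :=
  main n hn hd f hint

end Pool.Agent.Results.MP_261efc_co.NoRankOneAverage
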